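import Pool.Agent.Lib.MP_216314_pr.Y.YDual

/-!
# Edge duality

`edge_dual`: for a finite set `ω` of open edges and an edge `e ∉ ω`, the ends of `e` are connected in `ω` if and only if the two faces of
`e` are not connected by a dual path which avoids `ω ∪ {e}`.
-/

set_option autoImplicit false

noncomputable section

namespace FKY

open Finset FKI

theorem edge_dual_not {ω : Finset Edge} {e : Edge} (he : e ∉ ω) (h : (gr ω).Reachable (ea e) (eb e)) :
    ¬ (dgr (insert e ω)).Reachable (fa e) (fb e) := by
  classical
  obtain ⟨c, hc, hb⟩ := pth h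
  have hb2 : ∀ v, bd (c + sg e) v = 0 := by
    intro v
    rw [bd_add, hb, bd_sg]
    exact z2_add_self _
  have hS : ∀ e', e' ∉ insert e ω → (c + sg e) e' = 0 := by
    intro e' he'
    rw [mem_insert, not_or] at he'
    rw [Pi.add_apply, hc e' he'.2, zero_add]
    simp [sg, he'.1]
  obtain ⟨z, hz⟩ := prim2 hS hb2
  intro hr
  have h1 := dgr_const (z := z) (fun e' he' => by
    have h2 := hz e'
    rw [hS e' he'] at h2
    have h3 : ∀ x y : ZMod 2, x + y = 0 → x = y := by decide
    exact h3 _ _ h2) hr
  have h2 := hz e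
  rw [h1, z2_add_self, Pi.add_apply, hc e he, zero_add] at h2
  simp [sg] at h2

/-- the inverse of `star` -/
def ust (e : Edge) : Edge := if e.2.2 then (e.1, e.2.1 + 1, false) else (e.1 + 1, e.2.1, true)

theorem star_ust (e : Edge) : star (ust e) = e := by
  obtain ⟨x, y, t⟩ := e
  cases t <;> simp [star, ust]

theorem ust_star (e : Edge) : ust (star e) = e := star_inj (star_ust _)

theorem fa_ust (e : Edge) : fa (ust e) = ea e := by
  unfold fa
  rw [star_ust]

theorem fb_ust (e : Edge) : fb (ust e) = eb e := by
  unfold fb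
  rw [star_ust]

/-- the dual chain of the edges with exactly one end in a set -/
def cutc (k : V → ZMod 2) (e : Edge) : ZMod 2 := k (ea (ust e)) + k (eb (ust e))

theorem bd_cutc (k : V → ZMod 2) (f : V) : bd (cutc k) f = 0 := by
  obtain ⟨x, y⟩ := f
  have e1 : ∀ a b c d : ZMod 2, (a + b) + (c + d) + (a + c) + (b + d) = 0 := by decide
  simp only [bd, cutc, ust, ea, eb, Bool.false_eq_true, if_false, if_true, sub_add_cancel]
  exact e1 _ _ _ _

/-- the vertices of a finite configuration which are connected to `a` form a finite set -/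
theorem reach_fin {ω : Finset Edge} {a v : V} (h : (gr ω).Reachable a v) :
    v ∈ insert a (ω.image ea ∪ ω.image eb) := by
  classical
  obtain ⟨p⟩ := h
  cases p.reverse with
  | nil => exact mem_insert_self _ _
  | cons hadj _ =>
    unfold gr at hadj
    rw [SimpleGraph.fromRel_adj] at hadj
    refine mem_insert_of_mem (mem_union.2 ?_)
    rcases hadj.2 with ⟨e, he, h1, h2⟩ | ⟨e, he, h1, h2⟩
    · exact Or.inl (mem_image.2 ⟨e, he, h1⟩)
    · exact Or.inr (mem_image.2 ⟨e, he, h2⟩)

theorem gr_adj {ω : Finset Edge} {e : Edge} (h : e ∈ ω) : (gr ω).Adj (ea e) (eb e) := by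
  unfold gr
  rw [SimpleGraph.fromRel_adj]
  refine ⟨?_, Or.inl ⟨e, h, rfl, rfl⟩⟩
  obtain ⟨x, y, t⟩ := e
  cases t
  · simp [ea, eb]
  · simp [ea, eb]

/-- the four edges at a vertex -/
def star4 (v : V) : Finset Edge := {(v.1 - 1, v.2, false), (v.1, v.2, false), (v.1, v.2 - 1, true), (v.1, v.2, true)}

theorem mem_star4 (e : Edge) : e ∈ star4 (ea e) ∧ e ∈ star4 (eb e) := by
  obtain ⟨x, y, t⟩ := e
  cases t
  · simp [star4, ea, eb]
  · simp [star4, ea, eb]

theorem edge_dual_or {ω : Finset Edge} {e : Edge} (h : ¬ (gr ω).Reachable (ea e) (eb e)) :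
    (dgr (insert e ω)).Reachable (fa e) (fb e) := by
  classical
  set k : V → ZMod 2 := fun v => if (gr ω).Reachable (ea e) v then 1 else 0 with hk
  -- the cut chain does not meet `ω`
  have hcut : ∀ e', e' ∈ ω → cutc k (star e') = 0 := by
    intro e' he'
    unfold cutc
    rw [ust_star]
    have h1 : (gr ω).Reachable (ea e) (ea e') ↔ (gr ω).Reachable (ea e) (eb e') :=
      ⟨fun h2 => h2.trans (gr_adj he').reachable, fun h2 => h2.trans (gr_adj he').symm.reachable⟩
    simp only [hk, h1]
    exact z2_add_self _
  have hcute : cutc k (star e) = 1 := by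
    unfold cutc
    rw [ust_star]
    simp only [hk]
    rw [if_pos (SimpleGraph.Reachable.refl _), if_neg h, add_zero]
  -- remove `e`
  set d : Edge → ZMod 2 := cutc k + sg (star e) with hd
  have hdb : ∀ v, bd d v = ind (fa e) v + ind (fb e) v := by
    intro v
    rw [hd, bd_add, bd_cutc, zero_add, bd_sg]
    rfl
  have hde : d (star e) = 0 := by
    rw [hd, Pi.add_apply, hcute]
    have : (1 : ZMod 2) + 1 = 0 := by decide
    simp only [sg, if_true]
    exact this
  have hdn : ∀ e', e' ≠ star e → d e' = cutc k e' := by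
    intro e' he'
    rw [hd, Pi.add_apply]
    simp [sg, he']
  have hdo : ∀ e', d e' ≠ 0 → ust e' ∉ insert e ω := by
    intro e' he' hm
    rw [mem_insert] at hm
    rcases hm with hm | hm
    · apply he'
      have : e' = star e := by rw [← hm, star_ust]
      rw [this, hde]
    · apply he'
      by_cases h2 : e' = star e
      · rw [h2, hde]
      · rw [hdn e' h2, ← star_ust e']
        exact hcut _ hm
  -- finite support
  set K : Finset V := insert (ea e) (ω.image ea ∪ ω.image eb) with hK
  set S : Finset Edge := insert (star e) ((K.biUnion star4).image star) with hSdef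
  have hS : ∀ e', e' ∉ S → d e' = 0 := by
    intro e' he'
    rw [hSdef, mem_insert, not_or] at he'
    rw [hdn e' he'.1]
    by_contra h2
    have h3 : (gr ω).Reachable (ea e) (ea (ust e')) ∨ (gr ω).Reachable (ea e) (eb (ust e')) := by
      by_contra h4
      rw [not_or] at h4
      apply h2
      unfold cutc
      simp only [hk]
      rw [if_neg h4.1, if_neg h4.2, add_zero]
    apply he'.2
    rw [mem_image]
    refine ⟨ust e', ?_, star_ust e'⟩
    rw [mem_biUnion]
    rcases h3 with h3 | h3
    · exact ⟨_, reach_fin h3, (mem_star4 _).1⟩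
    · exact ⟨_, reach_fin h3, (mem_star4 _).2⟩
  -- the component of `fa e`
  set R : V → Prop := fun v => (dgr (insert e ω)).Reachable (fa e) v with hR
  have hRe : ∀ e', d e' ≠ 0 → (R (ea e') ↔ R (eb e')) := by
    intro e' he'
    have h1 := dgr_adj (hdo e' he')
    rw [fa_ust, fb_ust] at h1
    exact ⟨fun h2 => h2.trans h1.reachable, fun h2 => h2.trans h1.symm.reachable⟩
  set d2 : Edge → ZMod 2 := fun e' => if R (ea e') then d e' else 0 with hd2
  have hd2b : ∀ v, bd d2 v = if R v then bd d v else 0 := by
    rintro ⟨x, y⟩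
    have key : ∀ e' : Edge, (ea e' = (x, y) ∨ eb e' = (x, y)) → d2 e' = if R (x, y) then d e' else 0 := by
      intro e' h1
      by_cases h2 : d e' = 0
      · simp only [hd2, h2, ite_self]
      · have h3 := hRe e' h2
        rcases h1 with h1 | h1
        · simp only [hd2]
          rw [h1]
        · rw [h1] at h3
          simp only [hd2, h3]
    unfold bd
    simp only
    rw [key (x - 1, y, false) (Or.inr (by simp [eb])), key (x, y, false) (Or.inl (by simp [ea])),
      key (x, y - 1, true) (Or.inr (by simp [eb])), key (x, y, true) (Or.inl (by simp [ea]))]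
    by_cases h2 : R (x, y)
    · simp only [h2, if_true]
    · simp only [h2, if_false, add_zero]
  have hS2 : ∀ e', e' ∉ S → d2 e' = 0 := by
    intro e' he'
    simp only [hd2, hS e' he', ite_self]
  set T : Finset V := insert (fa e) (insert (fb e) (S.image ea ∪ S.image eb)) with hT
  have hsum := bd_sum hS2 (T := T) (fun e' he' => ⟨by
    rw [hT]
    exact mem_insert_of_mem (mem_insert_of_mem (mem_union_left _ (mem_image_of_mem _ he'))), by
    rw [hT]
    exact mem_insert_of_mem (mem_insert_of_mem (mem_union_right _ (mem_image_of_mem _ he')))⟩)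
  by_contra hcon
  have hval : ∀ v ∈ T, bd d2 v = ind (fa e) v := by
    intro v _
    rw [hd2b, hdb]
    by_cases h1 : R v
    · rw [if_pos h1]
      have h2 : v ≠ fb e := fun h3 => hcon (h3 ▸ h1)
      have h4 : ind (fb e) v = 0 := by
        unfold ind
        rw [if_neg h2]
      rw [h4, add_zero]
    · rw [if_neg h1]
      have h2 : v ≠ fa e := fun h3 => h1 (h3 ▸ SimpleGraph.Reachable.refl _)
      unfold ind
      rw [if_neg h2]
  rw [sum_congr rfl hval] at hsum
  unfold ind at hsum
  rw [sum_ite_eq' T (fa e), if_pos (mem_insert_self _ _)] at hsum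
  exact absurd hsum (by decide)

/-- **edge duality** -/
theorem edge_dual {ω : Finset Edge} {e : Edge} (he : e ∉ ω) :
    (gr ω).Reachable (ea e) (eb e) ↔ ¬ (dgr (insert e ω)).Reachable (fa e) (fb e) :=
  ⟨edge_dual_not he, fun h => by
    by_contra h2
    exact h (edge_dual_or h2)⟩

end FKY
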