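import Pool.Agent.Lib.MP_216314_pr.Chain

/-!
# Duality for one edge of a finite planar configuration

`star e`: the dual edge, joining the two faces next to `e` (faces are named by their lower left corner).
`dgr ω`: the graph of the faces, two neighbouring faces are joined when the edge between them is not in `ω`.
`prim2`: a finite even chain is the boundary of a function on the faces.
`edge_dual`: the ends of `e ∉ ω` are connected in `ω` if and only if the two faces of `e` are not connected by a dual path avoiding `ω ∪ {e}`.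
-/

set_option autoImplicit false

noncomputable section

namespace FKY

open Finset FKI

/-- the dual edge -/
def star (e : Edge) : Edge := if e.2.2 then (e.1 - 1, e.2.1, false) else (e.1, e.2.1 - 1, true)

/-- left or lower face of an edge -/
def fa (e : Edge) : V := ea (star e)

/-- right or upper face of an edge -/
def fb (e : Edge) : V := eb (star e)

theorem fa_v (x y : ℤ) : fa (x, y, true) = (x - 1, y) := by
  simp [fa, star, ea]

theorem fb_v (x y : ℤ) : fb (x, y, true) = (x, y) := by
  simp [fb, star, eb]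

theorem fa_h (x y : ℤ) : fa (x, y, false) = (x, y - 1) := by
  simp [fa, star, ea]

theorem fb_h (x y : ℤ) : fb (x, y, false) = (x, y) := by
  simp [fb, star, eb]

theorem star_inj : Function.Injective star := by
  rintro ⟨x, y, t⟩ ⟨x', y', t'⟩ h
  cases t <;> cases t' <;> simp [star] at h ⊢ <;> omega

/-- the graph of the faces -/
def dgr (ω : Finset Edge) : SimpleGraph V :=
  SimpleGraph.fromRel (fun f g => ∃ e, e ∉ ω ∧ fa e = f ∧ fb e = g)

theorem dgr_adj {ω : Finset Edge} {e : Edge} (h : e ∉ ω) : (dgr ω).Adj (fa e) (fb e) := by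
  unfold dgr
  rw [SimpleGraph.fromRel_adj]
  refine ⟨?_, Or.inl ⟨e, h, rfl, rfl⟩⟩
  obtain ⟨x, y, t⟩ := e
  cases t
  · rw [fa_h, fb_h]
    intro h2
    rw [Prod.mk.injEq] at h2
    omega
  · rw [fa_v, fb_v]
    intro h2
    rw [Prod.mk.injEq] at h2
    omega

theorem dgr_mono {ω ω' : Finset Edge} (h : ω ⊆ ω') : dgr ω' ≤ dgr ω := by
  intro f g hfg
  unfold dgr at hfg ⊢
  rw [SimpleGraph.fromRel_adj] at hfg ⊢
  refine ⟨hfg.1, ?_⟩
  rcases hfg.2 with ⟨e, he, h2⟩ | ⟨e, he, h2⟩
  · exact Or.inl ⟨e, fun h3 => he (h h3), h2⟩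
  · exact Or.inr ⟨e, fun h3 => he (h h3), h2⟩

/-- a function on the faces which does not change across the edges outside of `ω` is constant on the dual clusters -/
theorem dgr_const {ω : Finset Edge} {β : Type} {z : V → β} (hz : ∀ e, e ∉ ω → z (fa e) = z (fb e)) {f g : V}
    (h : (dgr ω).Reachable f g) : z f = z g := by
  obtain ⟨p⟩ := h
  induction p with
  | nil => rfl
  | cons hadj _ ih =>
    rw [← ih]
    unfold dgr at hadj
    rw [SimpleGraph.fromRel_adj] at hadj
    rcases hadj.2 with ⟨e, he, h1, h2⟩ | ⟨e, he, h1, h2⟩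
    · rw [← h1, ← h2]
      exact hz e he
    · rw [← h1, ← h2]
      exact (hz e he).symm

theorem z2_add_self (x : ZMod 2) : x + x = 0 := by
  revert x
  decide

/-- primitive of an even chain with finite support -/
theorem prim2 {S : Finset Edge} {c : Edge → ZMod 2} (hS : ∀ e, e ∉ S → c e = 0) (hb : ∀ v, bd c v = 0) :
    ∃ z : V → ZMod 2, ∀ e, z (fa e) + z (fb e) = c e := by
  obtain ⟨M, hM⟩ : ∃ M : ℤ, ∀ e ∈ S, M < e.1 := by
    refine ⟨-(∑ e ∈ S, |e.1|) - 1, fun e he => ?_⟩
    have h1 : |e.1| ≤ ∑ e ∈ S, |e.1| := single_le_sum (f := fun e : Edge => |e.1|) (fun _ _ => abs_nonneg _) he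
    have h2 := neg_abs_le e.1
    linarith
  have hlow : ∀ e : Edge, e.1 ≤ M → c e = 0 := by
    intro e he
    apply hS
    intro h
    have := hM e h
    omega
  set z : V → ZMod 2 := fun v => ∑ i ∈ Ioc M v.1, c (i, v.2, true) with hz
  have hz0 : ∀ x y : ℤ, x ≤ M → z (x, y) = 0 := by
    intro x y hx
    rw [hz]
    simp only
    rw [Ioc_eq_empty (by omega), sum_empty]
  have hz1 : ∀ x y : ℤ, z (x, y) = z (x - 1, y) + c (x, y, true) := by
    intro x y
    by_cases hx : x ≤ M
    · rw [hz0 x y hx, hz0 (x - 1) y (by omega), hlow (x, y, true) hx, add_zero]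
    · rw [hz]
      simp only
      have h1 : Ioc M x = insert x (Ioc M (x - 1)) := by
        ext k
        rw [mem_insert, mem_Ioc, mem_Ioc]
        omega
      have h2 : x ∉ Ioc M (x - 1) := by
        rw [mem_Ioc]
        omega
      rw [h1, sum_insert h2, add_comm]
  have hz2 : ∀ (y : ℤ) (k : ℕ), z (M + k, y) + z (M + k, y - 1) = c (M + k, y, false) := by
    intro y k
    induction k with
    | zero =>
      have e1 : M + ((0 : ℕ) : ℤ) = M := by simp
      rw [e1, hz0 M y le_rfl, hz0 M (y - 1) le_rfl, hlow (M, y, false) le_rfl, add_zero]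
    | succ k ih =>
      have h1 := hz1 (M + (k + 1 : ℕ)) y
      have h2 := hz1 (M + (k + 1 : ℕ)) (y - 1)
      have e1 : M + ((k + 1 : ℕ) : ℤ) - 1 = M + k := by
        push_cast
        ring
      rw [e1] at h1 h2
      have h3 := hb (M + (k + 1 : ℕ), y)
      unfold bd at h3
      simp only at h3
      rw [e1] at h3
      rw [h1, h2]
      have h4 := z2_add_self (c (M + (k + 1 : ℕ), y, false))
      linear_combination ih + h3 - h4
  refine ⟨z, fun e => ?_⟩
  obtain ⟨x, y, t⟩ := e
  cases t
  · rw [fa_h, fb_h]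
    by_cases hx : x ≤ M
    · rw [hz0 x y hx, hz0 x (y - 1) hx, hlow (x, y, false) hx, add_zero]
    · have h := hz2 y (x - M).toNat
      have e1 : M + (((x - M).toNat : ℕ) : ℤ) = x := by omega
      rw [e1] at h
      rw [add_comm]
      exact h
  · rw [fa_v, fb_v, hz1 x y, ← add_assoc, z2_add_self, zero_add]

/-- the boundary of a finite chain has an even number of points -/
theorem bd_sum {S : Finset Edge} {c : Edge → ZMod 2} (hS : ∀ e, e ∉ S → c e = 0) {T : Finset V}
    (hT : ∀ e ∈ S, ea e ∈ T ∧ eb e ∈ T) : ∑ v ∈ T, bd c v = 0 := by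
  classical
  have hc : c = ∑ e ∈ S, (fun e' => c e * sg e e') := by
    funext e'
    rw [Finset.sum_apply]
    by_cases h : e' ∈ S
    · rw [sum_eq_single e']
      · simp [sg]
      · intro b _ hb
        simp [sg, hb.symm]
      · intro h2
        exact absurd h h2
    · rw [hS e' h]
      symm
      apply sum_eq_zero
      intro e he
      have : e' ≠ e := fun h2 => h (h2 ▸ he)
      simp [sg, this]
  have hbd : ∀ v, bd c v = ∑ e ∈ S, c e * (ind (ea e) v + ind (eb e) v) := by
    intro v
    have h1 : ∀ e : Edge, c e * (ind (ea e) v + ind (eb e) v) = bd (fun e' => c e * sg e e') v := by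
      intro e
      rw [← bd_sg e v]
      unfold bd
      ring
    simp only [h1]
    unfold bd
    rw [← sum_add_distrib.symm]
    conv_lhs => rw [hc]
    simp only [Finset.sum_apply, sum_add_distrib]
  simp only [hbd]
  rw [sum_comm]
  apply sum_eq_zero
  intro e he
  rw [← mul_sum, sum_add_distrib]
  have h1 : ∀ u ∈ T, ∑ v ∈ T, ind u v = 1 := by
    intro u hu
    unfold ind
    rw [sum_ite_eq' T u, if_pos hu]
  rw [h1 _ (hT e he).1, h1 _ (hT e he).2]
  have : (1 : ZMod 2) + 1 = 0 := by decide
  rw [this, mul_zero]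

end FKY
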